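import Mathlib
import Pool.Agent.BSH.Stmts

set_option autoImplicit false

/-! Squad BSH, row IHT: small integer points on the generator (after `Helper34_SXF/IHT.lean`). -/

namespace Pool.Agent.BSH.H94

open MvPolynomial Pool.Agent.Helper78_ACIT Pool.Agent.BSH

theorem map_ext {R S : Type} [CommRing R] [CommRing S] (φ : R →+* S) {N : ℕ} (ξ : Fin N → R)
    (i : ℕ) : φ (ext ξ i) = ext (fun j => φ (ξ j)) i := by
  unfold ext
  split_ifs
  · rfl
  · exact map_zero φ

theorem degreeOf_level {τ : Type} (s : τ) (r q D : ℕ) (t : ℕ → MvPolynomial τ ℤ)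
    (ht : ∀ i, degreeOf s (t i) ≤ D) (i : ℕ) : degreeOf s (level r q t i) ≤ 2 ^ q * D := by
  classical
  unfold level
  split_ifs
  · exact (ht i).trans (Nat.le_mul_of_pos_left _ (by positivity))
  · refine (degreeOf_sum_le _ _ _).trans (Finset.sup_le fun m _ => ?_)
    refine (degreeOf_mul_le _ _ _).trans ?_
    have h1 : ((m : MvPolynomial τ ℤ) + 1) ^ (i - 3 * r) = C (((m : ℤ) + 1) ^ (i - 3 * r)) := by
      simp
    rw [h1, degreeOf_C, zero_add]
    exact (degreeOf_pow_le _ _ _).trans (Nat.mul_le_mul_left _ (ht m))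
  · rw [degreeOf_zero]
    exact Nat.zero_le _

theorem degreeOf_gen {τ : Type} (s : τ) (l : ℕ) : ∀ (σ ν : ℕ) (t : ℕ → MvPolynomial τ ℤ),
    (∀ i, degreeOf s (t i) ≤ 1) → ∀ i, degreeOf s (gen l σ ν t i) ≤ 2 ^ qq l σ := by
  induction l with
  | zero =>
    intro σ ν t ht i
    simpa [gen, qq] using ht i
  | succ l ih =>
    intro σ ν t ht i
    have h1 := degreeOf_level s (4 ^ l * ν) (7 + 3 * σ) (2 ^ qq l (14 * σ + 28))
      (gen l (14 * σ + 28) (3 * ν) t) (ih _ _ t ht) i
    rw [← pow_add] at h1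
    exact h1

theorem iht : NatStmt → IhtStmt := by
  classical
  intro hnat E _ _ l σ ν Δ P hD Q h1 hdvd
  obtain ⟨ξ0, h1⟩ := h1
  obtain ⟨H, hH⟩ : ∃ H : MvPolynomial (Fin (3 ^ l * ν)) ℤ, H = aeval
    (gen l σ ν (ext (fun j => (X j : MvPolynomial (Fin (3 ^ l * ν)) ℤ)))) P := ⟨_, rfl⟩
  have hgen : ∀ (S : Type) [CommRing S] (φ : MvPolynomial (Fin (3 ^ l * ν)) ℤ →+* S) (i : ℕ),
      φ (gen l σ ν (ext (fun j => (X j : MvPolynomial (Fin (3 ^ l * ν)) ℤ))) i) =
        gen l σ ν (ext (fun j => φ (X j))) i := by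
    intro S _ φ i
    rw [hnat.1]
    congr 1
    funext m
    exact map_ext φ _ m
  have heval : ∀ x : Fin (3 ^ l * ν) → ℤ, eval x H = eval (gen l σ ν (ext x)) P := by
    intro x
    rw [hH]
    have h3 : (eval x).comp (aeval (R := ℤ)
        (gen l σ ν (ext (fun j => (X j : MvPolynomial (Fin (3 ^ l * ν)) ℤ))))).toRingHom =
        eval (gen l σ ν (ext x)) := by
      apply MvPolynomial.ringHom_ext
      · intro a
        simp
      · intro i
        simp only [AlgHom.toRingHom_eq_coe, RingHom.coe_comp, RingHom.coe_coe,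
          Function.comp_apply, aeval_X, eval_X]
        rw [hgen _ (eval x)]
        simp only [eval_X]
    exact RingHom.congr_fun h3 P
  have hHne : H ≠ 0 := by
    intro hH0
    apply h1
    obtain ⟨g, hg⟩ := hdvd
    rw [hg, map_mul]
    have h3 : (eval (gen l σ ν (ext ξ0))).comp (map (Int.castRingHom E)) =
        (eval₂Hom (Int.castRingHom E) ξ0).comp (aeval (R := ℤ)
        (gen l σ ν (ext (fun j => (X j : MvPolynomial (Fin (3 ^ l * ν)) ℤ))))).toRingHom := by
      apply MvPolynomial.ringHom_ext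
      · intro a
        simp
      · intro i
        simp only [AlgHom.toRingHom_eq_coe, RingHom.coe_comp, RingHom.coe_coe,
          Function.comp_apply, aeval_X, map_X, eval_X]
        rw [hgen _ (eval₂Hom (Int.castRingHom E) ξ0)]
        simp only [coe_eval₂Hom, eval₂_X]
    have h4 := RingHom.congr_fun h3 P
    simp only [AlgHom.toRingHom_eq_coe, RingHom.coe_comp, RingHom.coe_coe,
      Function.comp_apply] at h4
    rw [h4, ← hH, hH0, map_zero, zero_mul]
  by_contra hcon
  push Not at hcon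
  apply hHne
  apply eq_zero_of_eval_zero_at_prod_finset H
    (fun _ => (Finset.range (Δ * 2 ^ qq l σ + 1)).image (fun a : ℕ => (a : ℤ)))
  · intro i
    rw [Finset.card_image_of_injective _ Nat.cast_injective, Finset.card_range, hH]
    refine Nat.lt_succ_of_le ?_
    rw [Nat.mul_comm Δ]
    refine Pool.Agent.UO.degreeOf_aeval_le _ P (2 ^ qq l σ) Δ i (fun j => ?_) hD
    refine degreeOf_gen i l σ ν _ (fun k => ?_) j
    unfold ext
    split_ifs
    · rw [degreeOf_X]
      split_ifs <;> omega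
    · rw [degreeOf_zero]
      exact Nat.zero_le _
  · intro x hx
    have hx' : ∀ i, ∃ a : ℕ, a ≤ Δ * 2 ^ qq l σ ∧ (a : ℤ) = x i := by
      intro i
      obtain ⟨a, ha, ha'⟩ := Finset.mem_image.mp (hx i)
      exact ⟨a, Nat.lt_succ_iff.mp (Finset.mem_range.mp ha), ha'⟩
    choose a ha ha' using hx'
    rw [heval]
    have := hcon a ha
    simpa only [ha'] using this

end Pool.Agent.BSH.H94
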